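import Mathlib

set_option autoImplicit false

namespace Pool.Agent.Y717.Cur

open scoped BigOperators
open Metric

variable {E : Type*} [NormedAddCommGroup E] [InnerProductSpace ℝ E]

/-- the intersection of the closed unit balls centred at the points of `S`. -/
def BP (S : Set E) : Set E := ⋂ c ∈ S, closedBall c (1 : ℝ)

theorem mem_BP {S : Set E} {x : E} : x ∈ BP S ↔ ∀ c ∈ S, ‖x - c‖ ≤ 1 := by
  simp [BP, mem_closedBall, dist_eq_norm]

/-- strong support inequality: a ball polyhedron is supported by unit balls. -/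
theorem strong_support {S : Set E} {x y W : E} (hy : y ∈ BP S) (hx : x ∈ BP S)
    (hmax : ∀ z ∈ BP S, inner ℝ W z ≤ inner ℝ W y) :
    ‖W‖ * ‖x - y‖ ^ 2 ≤ 2 * inner ℝ W (y - x) := by
  by_cases hW : W = 0
  · simp [hW]
  have hWpos : 0 < ‖W‖ := norm_pos_iff.mpr hW
  by_cases hxy : x = y
  · simp [hxy]
  have hDpos : 0 < ‖x - y‖ ^ 2 := by
    have : 0 < ‖x - y‖ := norm_pos_iff.mpr (sub_ne_zero.mpr hxy)
    positivity
  set D : ℝ := ‖x - y‖ ^ 2 with hD
  -- the key inequality for t in (0,1)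
  have key : ∀ t : ℝ, 0 < t → t < 1 → ‖W‖ * ((1 / 2) * (1 - t) * D) ≤ inner ℝ W (y - x) := by
    intro t ht0 ht1
    set r : ℝ := (1 / 2) * t * (1 - t) * D with hr
    have hr0 : 0 ≤ r := by
      have : 0 < 1 - t := by linarith
      positivity
    set u : E := (‖W‖⁻¹) • W with hu
    have hun : ‖u‖ = 1 := by
      rw [hu, norm_smul, norm_inv, norm_norm]
      field_simp
    have hz : y + t • (x - y) + r • u ∈ BP S := by
      rw [mem_BP]
      intro c hc
      have h1 := (mem_BP.mp hy) c hc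
      have h2 := (mem_BP.mp hx) c hc
      have hid : ‖(y - c) + t • (x - y)‖ ^ 2
          = (1 - t) * ‖y - c‖ ^ 2 + t * ‖x - c‖ ^ 2 - t * (1 - t) * D := by
        have hxc : x - c = (y - c) + (x - y) := by abel
        rw [hD, hxc, norm_add_sq_real, norm_add_sq_real, norm_smul, inner_smul_right,
          Real.norm_eq_abs, mul_pow, sq_abs]
        ring
      have h1' : ‖y - c‖ ^ 2 ≤ 1 := by
        have := norm_nonneg (y - c)
        nlinarith
      have h2' : ‖x - c‖ ^ 2 ≤ 1 := by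
        have := norm_nonneg (x - c)
        nlinarith
      have h3 : ‖(y - c) + t • (x - y)‖ ^ 2 ≤ 1 - 2 * r := by
        rw [hid, hr]
        nlinarith
      have h4 : ‖(y - c) + t • (x - y)‖ ≤ 1 - r := by
        have h5 : ‖(y - c) + t • (x - y)‖ ^ 2 ≤ (1 - r) ^ 2 := by nlinarith
        have h6 : 0 ≤ 1 - r := by
          have : 0 ≤ ‖(y - c) + t • (x - y)‖ ^ 2 := by positivity
          linarith
        exact abs_le_of_sq_le_sq' h5 h6 |>.2
      calc ‖y + t • (x - y) + r • u - c‖ = ‖((y - c) + t • (x - y)) + r • u‖ := by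
            congr 1; abel
        _ ≤ ‖(y - c) + t • (x - y)‖ + ‖r • u‖ := norm_add_le _ _
        _ ≤ (1 - r) + r := by
            have : ‖r • u‖ = r := by
              rw [norm_smul, hun, Real.norm_eq_abs, abs_of_nonneg hr0, mul_one]
            linarith
        _ = 1 := by ring
    have h7 := hmax _ hz
    have h8 : inner ℝ W (y + t • (x - y) + r • u)
        = inner ℝ W y - t * inner ℝ W (y - x) + r * ‖W‖ := by
      rw [inner_add_right, inner_add_right, inner_smul_right, inner_smul_right, hu,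
        inner_smul_right, real_inner_self_eq_norm_sq, inner_sub_right, inner_sub_right]
      field_simp
      ring
    rw [h8] at h7
    have h9 : r * ‖W‖ ≤ t * inner ℝ W (y - x) := by linarith
    have h10 : t * (‖W‖ * ((1 / 2) * (1 - t) * D)) ≤ t * inner ℝ W (y - x) := by
      calc t * (‖W‖ * ((1 / 2) * (1 - t) * D)) = r * ‖W‖ := by rw [hr]; ring
        _ ≤ _ := h9
    exact le_of_mul_le_mul_left h10 ht0
  by_contra hcon
  push Not at hcon
  set I : ℝ := inner ℝ W (y - x) with hI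
  have hWD : 0 < ‖W‖ * D := by positivity
  have hI0 : 0 ≤ I := by
    have := key (1 / 2) (by norm_num) (by norm_num)
    have h : 0 ≤ ‖W‖ * ((1 / 2) * (1 - 1 / 2) * D) := by positivity
    linarith
  set t : ℝ := (‖W‖ * D - 2 * I) / (2 * (‖W‖ * D)) with ht
  have ht0 : 0 < t := by
    rw [ht]; apply div_pos <;> linarith
  have ht1 : t < 1 := by
    rw [ht, div_lt_one (by linarith)]; linarith
  have h := key t ht0 ht1
  have h2 : t * (2 * (‖W‖ * D)) = ‖W‖ * D - 2 * I := by
    rw [ht]; field_simp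
  nlinarith

/-- `a` is a point with `P ⊆ B(a,1)`. -/
def Good (S : Set E) (a : E) : Prop := ∀ x ∈ BP S, ‖x - a‖ ≤ 1

theorem good_of_mem {S : Set E} {c : E} (hc : c ∈ S) : Good S c :=
  fun _ hx => (mem_BP.mp hx) c hc

theorem good_of_support {S : Set E} {y u : E} (hu : ‖u‖ = 1) (hy : y ∈ BP S)
    (hmax : ∀ z ∈ BP S, inner ℝ u z ≤ inner ℝ u y) : Good S (y - u) := by
  intro x hx
  have h := strong_support hy hx hmax
  rw [hu, one_mul] at h
  have h1 : ‖x - (y - u)‖ ^ 2 ≤ 1 := by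
    have : x - (y - u) = (x - y) + u := by abel
    rw [this, norm_add_sq_real, hu]
    have h2 : inner ℝ u (y - x) = - inner ℝ (x - y) u := by
      rw [real_inner_comm, ← inner_neg_left]; congr 1; abel
    rw [h2] at h
    linarith
  have := norm_nonneg (x - (y - u))
  nlinarith

theorem ball_of_good {S : Set E} {δ : ℝ} (hδ0 : 0 ≤ δ) (hδ1 : δ ≤ 1) {a b : E} (ha : Good S a)
    (hb : ∀ x : E, ‖x - b‖ ≤ 1 - δ → x ∈ BP S) : ‖b - a‖ ≤ δ := by
  by_cases hab : b - a = 0
  · rw [hab, norm_zero]; exact hδ0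
  have hpos : 0 < ‖b - a‖ := norm_pos_iff.mpr hab
  set e : E := (‖b - a‖⁻¹) • (b - a) with he
  have hen : ‖e‖ = 1 := by
    rw [he, norm_smul, norm_inv, norm_norm]; field_simp
  have h1 : b + (1 - δ) • e ∈ BP S := by
    apply hb
    have : b + (1 - δ) • e - b = (1 - δ) • e := by abel
    rw [this, norm_smul, hen, mul_one, Real.norm_eq_abs, abs_of_nonneg (by linarith)]
  have h2 := ha _ h1
  have h3 : b + (1 - δ) • e - a = (‖b - a‖ + (1 - δ)) • e := by
    have : b - a = ‖b - a‖ • e := by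
      rw [he, smul_smul]; field_simp; simp
    rw [add_smul, ← this]; abel
  rw [h3, norm_smul, hen, mul_one, Real.norm_eq_abs, abs_of_nonneg (by linarith)] at h2
  linarith

theorem dist_good {S : Set E} {δ : ℝ} (hδ0 : 0 ≤ δ) (hδ1 : δ ≤ 1)
    (hS : ∀ c ∈ S, ∀ c' ∈ S, ‖c - c'‖ ≤ δ) {a b : E} (ha : Good S a) (hb : Good S b) :
    ‖a - b‖ ≤ δ := by
  have h1 : ∀ c ∈ S, ‖c - a‖ ≤ δ := by
    intro c hc
    apply ball_of_good hδ0 hδ1 ha
    intro x hx
    rw [mem_BP]
    intro c' hc'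
    calc ‖x - c'‖ = ‖(x - c) + (c - c')‖ := by congr 1; abel
      _ ≤ ‖x - c‖ + ‖c - c'‖ := norm_add_le _ _
      _ ≤ (1 - δ) + δ := by linarith [hS c hc c' hc']
      _ = 1 := by ring
  apply ball_of_good hδ0 hδ1 hb
  intro x hx
  rw [mem_BP]
  intro c hc
  calc ‖x - c‖ = ‖(x - a) + (a - c)‖ := by congr 1; abel
    _ ≤ ‖x - a‖ + ‖a - c‖ := norm_add_le _ _
    _ ≤ (1 - δ) + δ := by
        have := h1 c hc
        rw [norm_sub_rev] at this
        linarith
    _ = 1 := by ring

end Pool.Agent.Y717.Cur
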