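import Mathlib
import Pool.Agent.Y717.Cur.A
import Pool.Agent.Y717.Bil.B
import Pool.Agent.Y717.Bil.C

set_option autoImplicit false

namespace Pool.Agent.Y717.Cur

open scoped BigOperators
open Metric Pool.Agent.Y717.Bil

variable {E : Type*} [NormedAddCommGroup E] [InnerProductSpace ℝ E]

theorem isCompact_BP [ProperSpace E] {S : Set E} (hS : S.Nonempty) : IsCompact (BP S) := by
  obtain ⟨c, hc⟩ := hS
  have h1 : BP S ⊆ closedBall c 1 := by
    intro x hx
    rw [mem_closedBall, dist_eq_norm]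
    exact mem_BP.mp hx c hc
  have h2 : IsClosed (BP S) := by
    unfold BP
    exact isClosed_biInter (fun c _ => isClosed_closedBall)
  exact (isCompact_closedBall c 1).of_isClosed_subset h2 h1

/-- data of a trajectory (vertices `q`, unit edge directions `v`) -/
structure Traj (S : Set E) (n : ℕ) (q v : ℕ → E) : Prop where
  qP : ∀ k, q k ∈ BP S
  qne : ∀ k, q (k + 1) ≠ q k
  hv : ∀ k, q (k + 1) - q k = ‖q (k + 1) - q k‖ • v k
  hv1 : ∀ k, ‖v k‖ = 1
  vper : v n = v 0
  qper : q n = q 0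
  hw : ∀ k, v k ≠ v (k + 1)
  sup : ∀ k, ∀ x ∈ BP S, inner ℝ (v k - v (k + 1)) x ≤ inner ℝ (v k - v (k + 1)) (q (k + 1))

theorem arc_ge {S : Set E} {n : ℕ} {q v : ℕ → E} (T : Traj S n q v) {lo hi : ℕ} (h : lo ≤ hi)
    {y : E} (hy : y ∈ BP S) :
    inner ℝ (v lo - v hi) y ≤ ∑ i ∈ Finset.Ico lo hi, inner ℝ (v i - v (i + 1)) (q (i + 1)) := by
  induction hi, h using Nat.le_induction with
  | base => simp
  | succ m hm ih =>
    rw [Finset.sum_Ico_succ_top hm]
    have h1 := T.sup m y hy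
    have h2 : inner ℝ (v lo - v (m + 1)) y = inner ℝ (v lo - v m) y
        + inner ℝ (v m - v (m + 1)) y := by
      rw [← inner_add_left]; congr 1; abel
    linarith

theorem eq_of_sup {S : Set E} {n : ℕ} {q v : ℕ → E} (T : Traj S n q v) {y : E}
    (hy : y ∈ BP S) {k : ℕ}
    (h : inner ℝ (v k - v (k + 1)) (q (k + 1)) ≤ inner ℝ (v k - v (k + 1)) y) :
    y = q (k + 1) := by
  have h1 := strong_support (T.qP (k + 1)) hy (T.sup k)
  rw [inner_sub_right] at h1
  have hW : 0 < ‖v k - v (k + 1)‖ := norm_pos_iff.mpr (sub_ne_zero.mpr (T.hw k))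
  have h2 : ‖y - q (k + 1)‖ ^ 2 ≤ 0 := by
    by_contra hcon
    push Not at hcon
    have := mul_pos hW hcon
    linarith
  have h3 : ‖y - q (k + 1)‖ = 0 := by
    have := sq_nonneg ‖y - q (k + 1)‖
    have h4 : ‖y - q (k + 1)‖ ^ 2 = 0 := le_antisymm h2 this
    exact pow_eq_zero_iff (two_ne_zero) |>.mp h4
  exact sub_eq_zero.mp (norm_eq_zero.mp h3)

theorem arc_gt {S : Set E} {n : ℕ} {q v : ℕ → E} (T : Traj S n q v) {lo hi : ℕ}
    (h : lo + 2 ≤ hi) {y : E} (hy : y ∈ BP S) :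
    inner ℝ (v lo - v hi) y < ∑ i ∈ Finset.Ico lo hi, inner ℝ (v i - v (i + 1)) (q (i + 1)) := by
  have h0 := arc_ge T h hy
  have hs : ∑ i ∈ Finset.Ico lo hi, inner ℝ (v i - v (i + 1)) (q (i + 1))
      = inner ℝ (v lo - v (lo + 1)) (q (lo + 1))
        + inner ℝ (v (lo + 1) - v (lo + 1 + 1)) (q (lo + 1 + 1))
        + ∑ i ∈ Finset.Ico (lo + 2) hi, inner ℝ (v i - v (i + 1)) (q (i + 1)) := by
    rw [Finset.sum_eq_sum_Ico_succ_bot (by omega : lo < hi),
      Finset.sum_eq_sum_Ico_succ_bot (by omega : lo + 1 < hi)]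
    ring
  rw [hs]
  have h1 := T.sup lo y hy
  have h2 := T.sup (lo + 1) y hy
  have h3 : inner ℝ (v lo - v hi) y = inner ℝ (v lo - v (lo + 1)) y
      + inner ℝ (v (lo + 1) - v (lo + 1 + 1)) y + inner ℝ (v (lo + 2) - v hi) y := by
    rw [← inner_add_left, ← inner_add_left]; congr 1; abel
  rw [h3]
  by_contra hcon
  push Not at hcon
  have e1 : y = q (lo + 1) := eq_of_sup T hy (by linarith)
  have e2 : y = q (lo + 1 + 1) := eq_of_sup T hy (by linarith)
  exact T.qne (lo + 1) (by rw [← e2, ← e1])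

theorem len_eq {S : Set E} {n : ℕ} {q v : ℕ → E} (T : Traj S n q v) :
    ∑ k ∈ Finset.range n, ‖q (k + 1) - q k‖
      = ∑ k ∈ Finset.range n, inner ℝ (v k - v (k + 1)) (q (k + 1)) := by
  have h1 : ∀ k, ‖q (k + 1) - q k‖ = inner ℝ (v k - v (k + 1)) (q (k + 1))
      + (inner ℝ (v (k + 1)) (q (k + 1)) - inner ℝ (v k) (q k)) := by
    intro k
    have h2 : inner ℝ (v k) (q (k + 1) - q k) = ‖q (k + 1) - q k‖ := by
      conv_lhs => rw [T.hv k]
      rw [inner_smul_right, real_inner_self_eq_norm_sq, T.hv1]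
      ring
    rw [inner_sub_right] at h2
    rw [inner_sub_left]
    linarith
  rw [Finset.sum_congr rfl (fun k _ => h1 k), Finset.sum_add_distrib,
    Finset.sum_range_sub (fun k => inner ℝ (v k) (q k)), T.vper, T.qper]
  ring

theorem exists_nonpos {S : Set E} {n : ℕ} {q v : ℕ → E} (hn : 0 < n) (T : Traj S n q v)
    (z : E) : ∃ i, i < n ∧ inner ℝ (v i) z ≤ 0 := by
  by_contra hcon
  push Not at hcon
  have h1 : ∑ k ∈ Finset.range n, ‖q (k + 1) - q k‖ * inner ℝ (v k) z = 0 := by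
    have h2 : ∀ k, ‖q (k + 1) - q k‖ * inner ℝ (v k) z = inner ℝ (q (k + 1)) z
        - inner ℝ (q k) z := by
      intro k
      rw [← inner_sub_left]
      conv_rhs => rw [T.hv k]
      rw [real_inner_smul_left]
    rw [Finset.sum_congr rfl (fun k _ => h2 k),
      Finset.sum_range_sub (fun k => inner ℝ (q k) z), T.qper]
    ring
  have h3 : 0 < ∑ k ∈ Finset.range n, ‖q (k + 1) - q k‖ * inner ℝ (v k) z := by
    apply Finset.sum_pos
    · intro k hk
      apply mul_pos
      · exact norm_pos_iff.mpr (sub_ne_zero.mpr (T.qne k))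
      · exact hcon k (Finset.mem_range.mp hk)
    · exact ⟨0, Finset.mem_range.mpr hn⟩
  linarith

/-- the support value of four vectors with zero sum -/
theorem four_support [ProperSpace E] {S : Set E} (hSne : S.Nonempty) {δ : ℝ} (hδ0 : 0 ≤ δ)
    (hδ1 : δ ≤ 1) (hS : ∀ c ∈ S, ∀ c' ∈ S, ‖c - c'‖ ≤ δ) (W y : Fin 4 → E)
    (hy : ∀ j, y j ∈ BP S) (hmax : ∀ j, ∀ z ∈ BP S, inner ℝ (W j) z ≤ inner ℝ (W j) (y j))
    (h0 : ∑ j, W j = 0) (hT : 4 ≤ ∑ j, ‖W j‖) (hsq : 8 ≤ ∑ j, ‖W j‖ ^ 2) :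
    4 - 2 * δ ≤ ∑ j, inner ℝ (W j) (y j) ∧
    (4 < ∑ j, ‖W j‖ → 4 - 2 * δ < ∑ j, inner ℝ (W j) (y j)) := by
  classical
  obtain ⟨c₀, hc₀⟩ := hSne
  let U : Fin 4 → E := fun j => (‖W j‖⁻¹) • W j
  let c : Fin 4 → E := fun j => if W j = 0 then c₀ else y j - U j
  have hU1 : ∀ j, W j ≠ 0 → ‖U j‖ = 1 := by
    intro j hj
    have : ‖W j‖ ≠ 0 := norm_ne_zero_iff.mpr hj
    simp only [U]
    rw [norm_smul, norm_inv, norm_norm]
    field_simp
  have hWU : ∀ j, ‖W j‖ • U j = W j := by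
    intro j
    by_cases hj : W j = 0
    · simp [hj]
    · have : ‖W j‖ ≠ 0 := norm_ne_zero_iff.mpr hj
      simp only [U, smul_smul]
      rw [mul_inv_cancel₀ this, one_smul]
  have hgood : ∀ j, Good S (c j) := by
    intro j
    by_cases hj : W j = 0
    · simp only [c, hj, if_true]; exact good_of_mem hc₀
    · simp only [c, hj, if_false]
      apply good_of_support (hU1 j hj) (hy j)
      intro z hz
      simp only [U]
      rw [real_inner_smul_left, real_inner_smul_left]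
      exact mul_le_mul_of_nonneg_left (hmax j z hz) (by positivity)
  have hval : ∀ j, ‖W j‖ + ‖W j‖ * inner ℝ (U j) (c j) = inner ℝ (W j) (y j) := by
    intro j
    by_cases hj : W j = 0
    · simp [hj]
    · simp only [c, hj, if_false]
      rw [inner_sub_right, real_inner_self_eq_norm_sq, hU1 j hj]
      have : inner ℝ (W j) (y j) = ‖W j‖ * inner ℝ (U j) (y j) := by
        rw [← real_inner_smul_left, hWU]
      rw [this]; ring
  have key := four_ineq (fun j => ‖W j‖) U c (fun j => norm_nonneg _) (by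
      intro j
      by_cases hj : W j = 0
      · simp [hj]
      · rw [hU1 j hj]; ring) (by simp_rw [hWU]; exact h0) hδ0 hδ1
      (fun i j => dist_good hδ0 hδ1 hS (hgood i) (hgood j)) hT hsq
  have hsum : (∑ j, ‖W j‖) + ∑ j, ‖W j‖ * inner ℝ (U j) (c j) = ∑ j, inner ℝ (W j) (y j) := by
    rw [← Finset.sum_add_distrib]
    exact Finset.sum_congr rfl (fun j _ => hval j)
  rw [hsum] at key
  exact key

theorem main_ineq [ProperSpace E] {S : Set E} (hSne : S.Nonempty) {δ : ℝ} (hδ0 : 0 ≤ δ)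
    (hδ1 : δ ≤ 1) (hS : ∀ c ∈ S, ∀ c' ∈ S, ‖c - c'‖ ≤ δ) {n : ℕ} (hn : 3 ≤ n) {q v : ℕ → E}
    (T : Traj S n q v) :
    4 - 2 * δ < ∑ k ∈ Finset.range n, ‖q (k + 1) - q k‖ := by
  obtain ⟨b, k, d, hbk, hkd, hdn, hquad⟩ :=
    exists_quad T.hv1 T.vper (exists_nonpos (by omega) T)
  let lo : Fin 4 → ℕ := ![0, b, k, d]
  let hi : Fin 4 → ℕ := ![b, k, d, n]
  let W : Fin 4 → E := fun j => v (lo j) - v (hi j)
  have hlohi : ∀ j, lo j ≤ hi j := by
    intro j; fin_cases j <;> simp [lo, hi] <;> omega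
  have hexy : ∀ j, ∃ y ∈ BP S, ∀ z ∈ BP S, inner ℝ (W j) z ≤ inner ℝ (W j) y := by
    intro j
    obtain ⟨y, hy, hmax⟩ := (isCompact_BP hSne).exists_isMaxOn ⟨q 0, T.qP 0⟩
      (f := fun z => inner ℝ (W j) z) (by
        apply Continuous.continuousOn
        exact Continuous.inner continuous_const continuous_id)
    exact ⟨y, hy, fun z hz => hmax hz⟩
  choose y hyP hymax using hexy
  have hW0 : ∑ j, W j = 0 := by
    rw [Fin.sum_univ_four]
    simp only [W, lo, hi, Matrix.cons_val_zero, Matrix.cons_val_one, Matrix.cons_val]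
    rw [T.vper]; abel
  have hsq : 8 ≤ ∑ j, ‖W j‖ ^ 2 := by
    rw [Fin.sum_univ_four]
    simp only [W, lo, hi, Matrix.cons_val_zero, Matrix.cons_val_one, Matrix.cons_val]
    rw [T.vper]
    simp only [norm_sub_sq_real, T.hv1]
    rw [inner_add_left, inner_add_right, inner_add_right] at hquad
    have e1 := real_inner_comm (v b) (v 0)
    have e2 := real_inner_comm (v d) (v k)
    linarith
  have hle2 : ∀ j, ‖W j‖ ≤ 2 := by
    intro j
    calc ‖W j‖ ≤ ‖v (lo j)‖ + ‖v (hi j)‖ := norm_sub_le _ _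
      _ = 2 := by rw [T.hv1, T.hv1]; norm_num
  have hterm : ∀ j, 0 ≤ ‖W j‖ * (2 - ‖W j‖) := fun j =>
    mul_nonneg (norm_nonneg _) (by linarith [hle2 j])
  have hid : ∑ j, ‖W j‖ * (2 - ‖W j‖) = 2 * (∑ j, ‖W j‖) - ∑ j, ‖W j‖ ^ 2 := by
    rw [Finset.mul_sum, ← Finset.sum_sub_distrib]
    exact Finset.sum_congr rfl (fun j _ => by ring)
  have hT : 4 ≤ ∑ j, ‖W j‖ := by
    have : 0 ≤ ∑ j, ‖W j‖ * (2 - ‖W j‖) := Finset.sum_nonneg (fun j _ => hterm j)
    linarith
  have hfour := four_support hSne hδ0 hδ1 hS W y hyP hymax hW0 hT hsq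
  have hsplit : ∑ i ∈ Finset.range n, inner ℝ (v i - v (i + 1)) (q (i + 1))
      = ∑ j, ∑ i ∈ Finset.Ico (lo j) (hi j), inner ℝ (v i - v (i + 1)) (q (i + 1)) := by
    rw [Fin.sum_univ_four]
    simp only [lo, hi, Matrix.cons_val_zero, Matrix.cons_val_one, Matrix.cons_val]
    rw [Finset.sum_Ico_consecutive _ (Nat.zero_le b) hbk,
      Finset.sum_Ico_consecutive _ (Nat.zero_le k) hkd,
      Finset.sum_Ico_consecutive _ (Nat.zero_le d) hdn, Finset.range_eq_Ico]
  rw [len_eq T, hsplit]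
  by_cases hlong : ∃ j, lo j + 2 ≤ hi j
  · obtain ⟨j, hj⟩ := hlong
    calc 4 - 2 * δ ≤ ∑ j, inner ℝ (W j) (y j) := hfour.1
      _ < _ := by
        apply Finset.sum_lt_sum
        · intro i _
          exact arc_ge T (hlohi i) (hyP i)
        · exact ⟨j, Finset.mem_univ _, arc_gt T hj (hyP j)⟩
  · push Not at hlong
    have hTlt : 4 < ∑ j, ‖W j‖ := by
      by_contra hcon
      push Not at hcon
      have hz : ∑ j, ‖W j‖ * (2 - ‖W j‖) = 0 := by
        apply le_antisymm
        · linarith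
        · exact Finset.sum_nonneg (fun j _ => hterm j)
      have hz2 := (Finset.sum_eq_zero_iff_of_nonneg (fun j _ => hterm j)).mp hz
      have hcase : ∀ j, lo j < hi j → ‖W j‖ = 2 := by
        intro j hj
        have h1 : hi j = lo j + 1 := by have := hlong j; omega
        have h2 : W j ≠ 0 := by
          simp only [W]; rw [h1]; exact sub_ne_zero.mpr (T.hw _)
        have h3 := hz2 j (Finset.mem_univ _)
        rcases mul_eq_zero.mp h3 with h4 | h4
        · exact absurd (norm_eq_zero.mp h4) h2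
        · linarith
      have c0 := hcase 0
      have c1 := hcase 1
      have c2 := hcase 2
      have c3 := hcase 3
      have l0 := hlong 0
      have l1 := hlong 1
      have l2 := hlong 2
      have l3 := hlong 3
      rw [Fin.sum_univ_four] at hcon
      have p0 := norm_nonneg (W 0)
      have p1 := norm_nonneg (W 1)
      have p2 := norm_nonneg (W 2)
      have p3 := norm_nonneg (W 3)
      have g0 : lo 0 = 0 := rfl
      have g1 : lo 1 = b := rfl
      have g2 : lo 2 = k := rfl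
      have g3 : lo 3 = d := rfl
      have f0 : hi 0 = b := rfl
      have f1 : hi 1 = k := rfl
      have f2 : hi 2 = d := rfl
      have f3 : hi 3 = n := rfl
      rw [g0, f0] at c0 l0
      rw [g1, f1] at c1 l1
      rw [g2, f2] at c2 l2
      rw [g3, f3] at c3 l3
      by_cases b0 : 0 < b <;> by_cases b1 : b < k <;> by_cases b2 : k < d <;> by_cases b3 : d < n
      all_goals first
        | (exfalso; omega)
        | skip
      all_goals simp only [b0, b1, b2, b3, forall_true_left] at c0 c1 c2 c3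
      all_goals linarith
    calc 4 - 2 * δ < ∑ j, inner ℝ (W j) (y j) := hfour.2 hTlt
      _ ≤ _ := by
        apply Finset.sum_le_sum
        intro i _
        exact arc_ge T (hlohi i) (hyP i)

end Pool.Agent.Y717.Cur
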