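import Mathlib

set_option autoImplicit false

namespace Pool.Agent.Y717.Cur

open scoped BigOperators

variable {E : Type*} [NormedAddCommGroup E] [InnerProductSpace ℝ E]

/-- minimal enclosing ball of a finite family, with barycentric weights on the contact points -/
theorem meb {ι : Type*} [Fintype ι] [Nonempty ι] (a : ι → E) :
    ∃ (z : E) (R : ℝ) (α : ι → ℝ), 0 ≤ R ∧ (∀ i, ‖a i - z‖ ≤ R) ∧ (∀ i, 0 ≤ α i) ∧
      ∑ i, α i = 1 ∧ ∑ i, α i • a i = z ∧ ∀ i, α i ≠ 0 → ‖a i - z‖ = R := by
  classical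
  let g : (ι → ℝ) → ℝ := fun α => ∑ i, α i * ‖a i‖ ^ 2 - ‖∑ i, α i • a i‖ ^ 2
  have hg : Continuous g := by
    have : Continuous fun α : ι → ℝ => ∑ i, α i * ‖a i‖ ^ 2 - ‖∑ i, α i • a i‖ ^ 2 := by fun_prop
    exact this
  obtain ⟨i₀⟩ := (inferInstance : Nonempty ι)
  have hne : (stdSimplex ℝ ι).Nonempty := ⟨_, single_mem_stdSimplex ℝ i₀⟩
  obtain ⟨α, hα, hmax⟩ := (isCompact_stdSimplex ℝ ι).exists_isMaxOn hne hg.continuousOn
  obtain ⟨h0, h1⟩ := hα
  set z : E := ∑ i, α i • a i with hz
  -- variance identity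
  have hvar : g α = ∑ i, α i * ‖a i - z‖ ^ 2 := by
    have e1 : ∀ i, α i * ‖a i - z‖ ^ 2
        = α i * ‖a i‖ ^ 2 - 2 * inner ℝ (α i • a i) z + α i * ‖z‖ ^ 2 := by
      intro i
      rw [norm_sub_sq_real, real_inner_smul_left]; ring
    simp_rw [e1, Finset.sum_add_distrib, Finset.sum_sub_distrib, ← Finset.mul_sum]
    rw [← sum_inner, ← hz, ← Finset.sum_mul, h1, real_inner_self_eq_norm_sq]
    simp only [g]
    rw [← hz]; ring
  have hgn : 0 ≤ g α := by
    rw [hvar]
    exact Finset.sum_nonneg (fun i _ => mul_nonneg (h0 i) (by positivity))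
  have hle : ∀ j, ‖a j - z‖ ^ 2 ≤ g α := by
    intro j
    have key : ∀ t : ℝ, 0 < t → t < 1 → (1 - t) * ‖a j - z‖ ^ 2 ≤ g α := by
      intro t ht0 ht1
      let β : ι → ℝ := fun i => (1 - t) * α i + t * (if i = j then 1 else 0)
      have hβ : β ∈ stdSimplex ℝ ι := by
        refine ⟨fun i => ?_, ?_⟩
        · simp only [β]
          have := h0 i
          split_ifs
          · nlinarith
          · nlinarith
        · simp only [β, Finset.sum_add_distrib, ← Finset.mul_sum, h1]
          simp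
      have h2 := hmax hβ
      simp only [Set.mem_setOf_eq] at h2
      have e2 : ∑ i, β i • a i = (1 - t) • z + t • a j := by
        simp only [β, add_smul, Finset.sum_add_distrib]
        congr 1
        · rw [hz, Finset.smul_sum]
          exact Finset.sum_congr rfl (fun i _ => by rw [smul_smul])
        · simp [mul_ite, ite_smul]
      have e3 : ∑ i, β i * ‖a i‖ ^ 2 = (1 - t) * ∑ i, α i * ‖a i‖ ^ 2 + t * ‖a j‖ ^ 2 := by
        simp only [β, add_mul, Finset.sum_add_distrib]
        congr 1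
        · rw [Finset.mul_sum]
          exact Finset.sum_congr rfl (fun i _ => by ring)
        · simp [mul_ite, ite_mul]
      have e4 : g β = (1 - t) * (g α + t * ‖a j - z‖ ^ 2) := by
        simp only [g]
        rw [e2, e3, ← hz, norm_add_sq_real, norm_smul, norm_smul, real_inner_smul_left,
          real_inner_smul_right, norm_sub_sq_real, mul_pow, mul_pow, Real.norm_eq_abs,
          Real.norm_eq_abs, sq_abs, sq_abs, real_inner_comm (a j) z]
        ring
      have h3 : g β ≤ g α := h2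
      rw [e4] at h3
      have h4 : t * ((1 - t) * ‖a j - z‖ ^ 2) ≤ t * g α := by nlinarith
      exact le_of_mul_le_mul_left h4 ht0
    by_contra hcon
    push Not at hcon
    have hpos : 0 < ‖a j - z‖ ^ 2 := lt_of_le_of_lt hgn hcon
    set X : ℝ := ‖a j - z‖ ^ 2 with hX
    have h5 := key ((X - g α) / (2 * X)) (by apply div_pos <;> linarith)
      (by rw [div_lt_one (by linarith)]; linarith)
    have h6 : (X - g α) / (2 * X) * (2 * X) = X - g α := by field_simp
    nlinarith
  refine ⟨z, Real.sqrt (g α), α, Real.sqrt_nonneg _, ?_, h0, h1, rfl, ?_⟩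
  · intro i
    exact Real.le_sqrt_of_sq_le (hle i)
  · intro i hi
    have hsum : ∑ i, α i * (g α - ‖a i - z‖ ^ 2) = 0 := by
      simp_rw [mul_sub, Finset.sum_sub_distrib, ← Finset.sum_mul]
      rw [h1, ← hvar]; ring
    have h7 := (Finset.sum_eq_zero_iff_of_nonneg (fun i _ =>
      mul_nonneg (h0 i) (sub_nonneg.mpr (hle i)))).mp hsum i (Finset.mem_univ _)
    rcases mul_eq_zero.mp h7 with h8 | h8
    · exact absurd h8 hi
    · have h9 : g α = ‖a i - z‖ ^ 2 := by linarith
      rw [h9, Real.sqrt_sq (norm_nonneg _)]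

end Pool.Agent.Y717.Cur
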