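import Mathlib
import Pool.Agent.Y717.Bil.C

set_option autoImplicit false

namespace Pool.Agent.Y717.Cur

open scoped BigOperators

variable {E : Type*} [NormedAddCommGroup E] [InnerProductSpace ℝ E]

/-- the selection of four vertices for a closed polygon in the unit ball, `0` in the convex hull
of the vertices on the unit sphere -/
theorem exists_quad' {v : ℕ → E} {n : ℕ} (h1 : ‖v 0‖ = 1) (hper : v n = v 0)
    (hz : ∀ z : E, ∃ i, i < n ∧ ‖v i‖ = 1 ∧ inner ℝ (v i) z ≤ 0) :
    ∃ b k d, b ≤ k ∧ k ≤ d ∧ d ≤ n ∧ ‖v b‖ = 1 ∧ ‖v k‖ = 1 ∧ ‖v d‖ = 1 ∧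
      inner ℝ (v b + v d) (v 0 + v k) ≤ 0 := by
  classical
  set J : Finset ℕ := (Finset.range (n + 1)).filter (fun k => ‖v k‖ = 1) with hJ
  have h0J : 0 ∈ J := by simp [hJ, h1]
  have hnJ : n ∈ J := by simp [hJ, hper, h1]
  have hJne : J.Nonempty := ⟨0, h0J⟩
  have hr : 0 < J.card := Finset.card_pos.mpr hJne
  set r : ℕ := J.card with hrdef
  let emb := J.orderEmbOfFin (rfl : J.card = r)
  let e : ℕ → ℕ := fun k => emb ⟨min k (r - 1), by omega⟩
  have hmono : Monotone e := by
    intro i j hij
    simp only [e]
    apply emb.monotone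
    simp only [Fin.mk_le_mk]
    omega
  have hmem : ∀ k, e k ∈ J := fun k => Finset.orderEmbOfFin_mem _ _ _
  have he0 : e 0 = 0 := by
    have h2 : e 0 = J.min' hJne := by
      simp only [e]
      rw [← Finset.orderEmbOfFin_zero (rfl : J.card = r) hr]
      simp [emb]
    rw [h2]
    apply le_antisymm
    · exact Finset.min'_le _ _ h0J
    · exact Nat.zero_le _
  have hen : e (r - 1) = n := by
    have h2 : e (r - 1) = J.max' hJne := by
      simp only [e]
      rw [← Finset.orderEmbOfFin_last (rfl : J.card = r) hr]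
      simp [emb]
      rfl
    rw [h2]
    apply le_antisymm
    · apply Finset.max'_le
      intro y hy
      rw [hJ, Finset.mem_filter, Finset.mem_range] at hy
      omega
    · exact Finset.le_max' _ _ hnJ
  have hnorm : ∀ k, ‖v (e k)‖ = 1 := by
    intro k
    have := hmem k
    rw [hJ, Finset.mem_filter] at this
    exact this.2
  have hlen : ∀ k, e k ≤ n := by
    intro k
    have := hmem k
    rw [hJ, Finset.mem_filter, Finset.mem_range] at this
    omega
  obtain ⟨b, k, d, hbk, hkd, hd, hq⟩ := Pool.Agent.Y717.Bil.exists_quad (v := fun k => v (e k))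
    (n := r - 1) hnorm (by simp only [he0, hen, hper]) (by
      intro z
      obtain ⟨i, hi, hi1, hi2⟩ := hz z
      have hiJ : i ∈ J := by
        rw [hJ, Finset.mem_filter, Finset.mem_range]
        exact ⟨by omega, hi1⟩
      have hir : i ∈ Set.range (J.orderEmbOfFin (rfl : J.card = r)) := by
        rw [Finset.range_orderEmbOfFin]; exact hiJ
      obtain ⟨j, hj⟩ := hir
      have hej : e j = i := by
        simp only [e]
        have : (⟨min (j : ℕ) (r - 1), by omega⟩ : Fin r) = j := by
          apply Fin.ext
          simp only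
          have := j.2
          omega
        rw [this]; exact hj
      have hjlt : (j : ℕ) < r - 1 := by
        by_contra hcon
        push Not at hcon
        have : e (r - 1) ≤ e j := hmono hcon
        rw [hen, hej] at this
        omega
      exact ⟨j, hjlt, by simp only [hej]; exact hi2⟩)
  simp only [he0] at hq
  exact ⟨e b, e k, e d, hmono hbk, hmono hkd, hlen d, hnorm b, hnorm k, hnorm d, hq⟩

end Pool.Agent.Y717.Cur
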