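import Mathlib
import Pool.Agent.Y717.Cur.D
import Pool.Agent.Y717.Cur.M
import Pool.Agent.Y717.Cur.Q

set_option autoImplicit false

namespace Pool.Agent.Y717.Cur

open scoped BigOperators
open Metric

variable {E : Type*} [NormedAddCommGroup E] [InnerProductSpace ℝ E]

theorem sum_shift {f : ℕ → ℝ} {n : ℕ} (hf : ∀ k, f (k + n) = f k) (s : ℕ) :
    ∑ k ∈ Finset.range n, f (k + s) = ∑ k ∈ Finset.range n, f k := by
  induction s with
  | zero => simp
  | succ s ih =>
    rw [← ih]
    have h1 : ∑ k ∈ Finset.range n, (f (k + (s + 1)) - f (k + s)) = f (n + s) - f (0 + s) := by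
      have := Finset.sum_range_sub (fun k => f (k + s)) n
      rw [← this]
      apply Finset.sum_congr rfl
      intro k _
      congr 2
      ring
    rw [Finset.sum_sub_distrib] at h1
    have h2 : f (n + s) = f (0 + s) := by
      rw [Nat.add_comm, hf]; simp
    linarith

/-- abstract form of the lower bound: a closed polygon `v` in the unit ball, with `0` in the convex
hull of its vertices on the unit sphere, and a closed polygon `q` whose vertices dominate the
support function of the ball body in the direction of the sides of `v`. -/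
theorem abstract_bound [ProperSpace E] {S : Set E} (hSne : S.Nonempty) {δ : ℝ} (hδ0 : 0 ≤ δ)
    (hδ1 : δ ≤ 1) (hS : ∀ c ∈ S, ∀ c' ∈ S, ‖c - c'‖ ≤ δ) {n : ℕ} {q v : ℕ → E} {ε : ℕ → ℝ}
    (hq : q n = q 0) (hvn : v n = v 0) (hv1 : ∀ k, ‖v k‖ ≤ 1) (h01 : ‖v 0‖ = 1)
    (hz : ∀ z : E, ∃ i, i < n ∧ ‖v i‖ = 1 ∧ inner ℝ (v i) z ≤ 0)
    (hsup : ∀ k, ∀ x ∈ BP S,
      inner ℝ (v k - v (k + 1)) x + ε k ≤ inner ℝ (v k - v (k + 1)) (q (k + 1))) :
    4 - 2 * δ + ∑ k ∈ Finset.range n, ε k ≤ ∑ k ∈ Finset.range n, ‖q (k + 1) - q k‖ := by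
  obtain ⟨b, k, d, hbk, hkd, hdn, hb1, hk1, hd1, hquad⟩ := exists_quad' h01 hvn hz
  let lo : Fin 4 → ℕ := ![0, b, k, d]
  let hi : Fin 4 → ℕ := ![b, k, d, n]
  let W : Fin 4 → E := fun j => v (lo j) - v (hi j)
  have hlohi : ∀ j, lo j ≤ hi j := by
    intro j; fin_cases j <;> simp [lo, hi] <;> omega
  have hBne : (BP S).Nonempty := by
    obtain ⟨c, hc⟩ := hSne
    refine ⟨c, mem_BP.mpr ?_⟩
    intro c' hc'
    linarith [hS c hc c' hc']
  have hexy : ∀ j, ∃ y ∈ BP S, ∀ z ∈ BP S, inner ℝ (W j) z ≤ inner ℝ (W j) y := by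
    intro j
    obtain ⟨y, hy, hmax⟩ := (isCompact_BP hSne).exists_isMaxOn hBne
      (f := fun z => inner ℝ (W j) z) (by
        apply Continuous.continuousOn
        exact Continuous.inner continuous_const continuous_id)
    exact ⟨y, hy, fun z hz => hmax hz⟩
  choose y hyP hymax using hexy
  have hW0 : ∑ j, W j = 0 := by
    rw [Fin.sum_univ_four]
    simp only [W, lo, hi, Matrix.cons_val_zero, Matrix.cons_val_one, Matrix.cons_val]
    rw [hvn]; abel
  have hsq : 8 ≤ ∑ j, ‖W j‖ ^ 2 := by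
    rw [Fin.sum_univ_four]
    simp only [W, lo, hi, Matrix.cons_val_zero, Matrix.cons_val_one, Matrix.cons_val]
    rw [hvn]
    simp only [norm_sub_sq_real, h01, hb1, hk1, hd1]
    rw [inner_add_left, inner_add_right, inner_add_right] at hquad
    have e1 := real_inner_comm (v b) (v 0)
    have e2 := real_inner_comm (v d) (v k)
    linarith
  have hle2 : ∀ j, ‖W j‖ ≤ 2 := by
    intro j
    calc ‖W j‖ ≤ ‖v (lo j)‖ + ‖v (hi j)‖ := norm_sub_le _ _
      _ ≤ 2 := by linarith [hv1 (lo j), hv1 (hi j)]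
  have hterm : ∀ j, 0 ≤ ‖W j‖ * (2 - ‖W j‖) := fun j =>
    mul_nonneg (norm_nonneg _) (by linarith [hle2 j])
  have hid : ∑ j, ‖W j‖ * (2 - ‖W j‖) = 2 * (∑ j, ‖W j‖) - ∑ j, ‖W j‖ ^ 2 := by
    rw [Finset.mul_sum, ← Finset.sum_sub_distrib]
    exact Finset.sum_congr rfl (fun j _ => by ring)
  have hT : 4 ≤ ∑ j, ‖W j‖ := by
    have : 0 ≤ ∑ j, ‖W j‖ * (2 - ‖W j‖) := Finset.sum_nonneg (fun j _ => hterm j)
    linarith
  have hfour := (four_support hSne hδ0 hδ1 hS W y hyP hymax hW0 hT hsq).1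
  -- the length
  have hlen : ∑ k ∈ Finset.range n, inner ℝ (v k - v (k + 1)) (q (k + 1))
      ≤ ∑ k ∈ Finset.range n, ‖q (k + 1) - q k‖ := by
    have h1 : ∀ k, inner ℝ (v k - v (k + 1)) (q (k + 1))
        + (inner ℝ (v (k + 1)) (q (k + 1)) - inner ℝ (v k) (q k)) ≤ ‖q (k + 1) - q k‖ := by
      intro k
      have h2 : inner ℝ (v k) (q (k + 1) - q k) ≤ ‖q (k + 1) - q k‖ := by
        have h3 := real_inner_le_norm (v k) (q (k + 1) - q k)
        have h4 := mul_le_mul_of_nonneg_right (hv1 k) (norm_nonneg (q (k + 1) - q k))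
        linarith
      rw [inner_sub_right] at h2
      rw [inner_sub_left]
      linarith
    have h5 := Finset.sum_le_sum (fun k (_ : k ∈ Finset.range n) => h1 k)
    rw [Finset.sum_add_distrib, Finset.sum_range_sub (fun k => inner ℝ (v k) (q k)), hvn, hq] at h5
    linarith
  have harc : ∀ (l h : ℕ), l ≤ h → ∀ x ∈ BP S,
      inner ℝ (v l - v h) x + ∑ i ∈ Finset.Ico l h, ε i
        ≤ ∑ i ∈ Finset.Ico l h, inner ℝ (v i - v (i + 1)) (q (i + 1)) := by
    intro l h hlh x hx
    induction h, hlh using Nat.le_induction with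
    | base => simp
    | succ m hm ih =>
      rw [Finset.sum_Ico_succ_top hm, Finset.sum_Ico_succ_top hm]
      have h1 := hsup m x hx
      have h2 : inner ℝ (v l - v (m + 1)) x = inner ℝ (v l - v m) x
          + inner ℝ (v m - v (m + 1)) x := by
        rw [← inner_add_left]; congr 1; abel
      linarith
  have hsplit : ∀ f : ℕ → ℝ, ∑ i ∈ Finset.range n, f i
      = ∑ j, ∑ i ∈ Finset.Ico (lo j) (hi j), f i := by
    intro f
    rw [Fin.sum_univ_four]
    simp only [lo, hi, Matrix.cons_val_zero, Matrix.cons_val_one, Matrix.cons_val]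
    rw [Finset.sum_Ico_consecutive _ (Nat.zero_le b) hbk,
      Finset.sum_Ico_consecutive _ (Nat.zero_le k) hkd,
      Finset.sum_Ico_consecutive _ (Nat.zero_le d) hdn, Finset.range_eq_Ico]
  have hfin : ∑ j, (inner ℝ (W j) (y j) + ∑ i ∈ Finset.Ico (lo j) (hi j), ε i)
      ≤ ∑ j, ∑ i ∈ Finset.Ico (lo j) (hi j), inner ℝ (v i - v (i + 1)) (q (i + 1)) :=
    Finset.sum_le_sum (fun j _ => harc _ _ (hlohi j) _ (hyP j))
  rw [Finset.sum_add_distrib, ← hsplit, ← hsplit] at hfin
  linarith

/-- closed polygons of length at most `4 - 2δ` have a translate in the ball body, finitely many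
centres -/
theorem cover_poly [ProperSpace E] (F : Finset E) (hFne : F.Nonempty) {δ : ℝ} (hδ0 : 0 ≤ δ)
    (hδ1 : δ ≤ 1) (hF : ∀ c ∈ F, ∀ c' ∈ F, ‖c - c'‖ ≤ δ) {n : ℕ} (hn : 0 < n) {q : ℕ → E}
    (hq : ∀ k, q (k + n) = q k)
    (hlen : ∑ k ∈ Finset.range n, ‖q (k + 1) - q k‖ ≤ 4 - 2 * δ) :
    ∃ t : E, ∀ k, ∀ c ∈ F, ‖q k + t - c‖ ≤ 1 := by
  classical
  haveI : Nonempty (Fin n × F) := ⟨⟨⟨0, hn⟩, ⟨hFne.choose, hFne.choose_spec⟩⟩⟩
  haveI : Nonempty (Fin n) := ⟨⟨0, hn⟩⟩
  obtain ⟨z, R, α, hR0, hle, hα0, hα1, hαz, hαR⟩ := meb (fun x : Fin n × F => q x.1 - (x.2 : E))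
  have hmod : ∀ k, q (k % n) = q k := by
    intro k
    have h : ∀ m r, q (r + m * n) = q r := by
      intro m
      induction m with
      | zero => simp
      | succ m ih =>
        intro r
        rw [Nat.succ_mul, ← Nat.add_assoc, hq, ih]
    conv_rhs => rw [← Nat.mod_add_div k n, Nat.mul_comm n]
    rw [h]
  by_cases hR1 : R ≤ 1
  · refine ⟨-z, fun k c hc => ?_⟩
    have h1 := hle (⟨k % n, Nat.mod_lt _ hn⟩, ⟨c, hc⟩)
    simp only [hmod] at h1
    calc ‖q k + -z - c‖ = ‖q k - c - z‖ := by congr 1; abel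
      _ ≤ 1 := h1.trans hR1
  exfalso
  push Not at hR1
  have hRpos : 0 < R := by linarith
  -- the weights at the vertices
  let ix : ℕ → Fin n := fun k => ⟨k % n, Nat.mod_lt _ hn⟩
  let W0 : Fin n → E := fun i => ∑ c : F, α (i, c) • ((R⁻¹) • (q i - (c : E) - z))
  let a0 : Fin n → ℝ := fun i => ∑ c : F, α (i, c)
  have hW0sum : ∑ i, W0 i = 0 := by
    have h1 : ∑ i, W0 i = (R⁻¹) • (∑ x : Fin n × F, α x • ((q x.1 - (x.2 : E)) - z)) := by
      rw [Fintype.sum_prod_type, Finset.smul_sum]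
      apply Finset.sum_congr rfl; intro i _
      rw [Finset.smul_sum]
      apply Finset.sum_congr rfl; intro c _
      rw [smul_comm]
    rw [h1]
    have h2 : ∑ x : Fin n × F, α x • ((q x.1 - (x.2 : E)) - z) = 0 := by
      simp_rw [smul_sub]
      rw [Finset.sum_sub_distrib, ← Finset.sum_smul, hα1, one_smul]
      simp_rw [← smul_sub]
      rw [hαz, sub_self]
    rw [h2, smul_zero]
  have ha0sum : ∑ i, a0 i = 1 := by
    rw [← hα1, Fintype.sum_prod_type]
  have hkey0 : ∀ i : Fin n, ∀ x ∈ BP (F : Set E),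
      inner ℝ (W0 i) x + (R - 1) * a0 i ≤ inner ℝ (W0 i) (q i - z) := by
    intro i x hx
    simp only [W0, a0]
    rw [sum_inner, sum_inner, Finset.mul_sum, ← Finset.sum_add_distrib]
    apply Finset.sum_le_sum
    intro c _
    by_cases hαc : α (i, c) = 0
    · simp [hαc]
    · have h1 := hαR (i, c) hαc
      simp only at h1
      have hapos : 0 ≤ α (i, c) := hα0 _
      rw [real_inner_smul_left, real_inner_smul_left, real_inner_smul_left, real_inner_smul_left]
      have h2 : inner ℝ (q i - (c : E) - z) (q i - z)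
          = inner ℝ (q i - (c : E) - z) (c : E) + R ^ 2 := by
        have : q i - z = (c : E) + (q i - (c : E) - z) := by abel
        conv_lhs => rw [this]
        rw [inner_add_right, real_inner_self_eq_norm_sq, h1]
      have h3 : inner ℝ (q i - (c : E) - z) x
          ≤ inner ℝ (q i - (c : E) - z) (c : E) + R := by
        have h4 : inner ℝ (q i - (c : E) - z) (x - (c : E)) ≤ R * 1 := by
          calc inner ℝ (q i - (c : E) - z) (x - (c : E))
              ≤ ‖q i - (c : E) - z‖ * ‖x - (c : E)‖ := real_inner_le_norm _ _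
            _ ≤ R * 1 := by
              rw [h1]
              exact mul_le_mul_of_nonneg_left (mem_BP.mp hx c (by simp)) hRpos.le
        rw [inner_sub_right] at h4
        linarith
      rw [h2]
      have h5 : R⁻¹ * inner ℝ (q i - (c : E) - z) x + (R - 1)
          ≤ R⁻¹ * (inner ℝ (q i - (c : E) - z) (c : E) + R ^ 2) := by
        have h6 : R⁻¹ * inner ℝ (q i - (c : E) - z) x
            ≤ R⁻¹ * (inner ℝ (q i - (c : E) - z) (c : E) + R) :=
          mul_le_mul_of_nonneg_left h3 (by positivity)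
        have h7 : R⁻¹ * (inner ℝ (q i - (c : E) - z) (c : E) + R ^ 2)
            = R⁻¹ * (inner ℝ (q i - (c : E) - z) (c : E) + R) + (R - 1) := by
          field_simp
          ring
        linarith
      calc α (i, c) * (R⁻¹ * inner ℝ (q i - (c : E) - z) x) + (R - 1) * α (i, c)
          = α (i, c) * (R⁻¹ * inner ℝ (q i - (c : E) - z) x + (R - 1)) := by ring
        _ ≤ _ := mul_le_mul_of_nonneg_left h5 hapos
  -- the polygon of partial sums
  let V : ℕ → E := fun k => - ∑ j ∈ Finset.range k, W0 (ix (j + 1))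
  have hVd : ∀ k, V k - V (k + 1) = W0 (ix (k + 1)) := by
    intro k
    simp only [V, Finset.sum_range_succ]
    abel
  have hixper : ∀ k, ix (k + n) = ix k := by
    intro k
    apply Fin.ext
    simp only [ix]
    exact Nat.add_mod_right k n
  have hsumix : ∀ g : Fin n → ℝ, ∑ k ∈ Finset.range n, g (ix (k + 1)) = ∑ i, g i := by
    intro g
    rw [sum_shift (f := fun k => g (ix k)) (fun k => by simp only [hixper]) 1, Finset.sum_range]
    apply Finset.sum_congr rfl
    intro i _
    congr 1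
    apply Fin.ext
    simp only [ix]
    exact Nat.mod_eq_of_lt i.2
  have hVn0 : V n = 0 := by
    have h1 : ∀ x : E, inner ℝ (V n) x = 0 := by
      intro x
      simp only [V]
      rw [inner_neg_left, sum_inner, hsumix (fun i => inner ℝ (W0 i) x), ← sum_inner, hW0sum]
      simp
    have h2 := h1 (V n)
    rw [real_inner_self_eq_norm_sq] at h2
    exact norm_eq_zero.mp (pow_eq_zero_iff (two_ne_zero) |>.mp h2)
  have hVper : ∀ k, V (k + n) = V k := by
    intro k
    induction k with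
    | zero =>
      rw [Nat.zero_add, hVn0]; simp [V]
    | succ k ih =>
      have h1 := hVd k
      have h2 := hVd (k + n)
      have h3 : ix (k + n + 1) = ix (k + 1) := by
        rw [show k + n + 1 = (k + 1) + n by ring, hixper]
      rw [h3, ih] at h2
      have h4 : k + 1 + n = k + n + 1 := by ring
      rw [h4]
      have h5 : V (k + n + 1) = V k - W0 (ix (k + 1)) := by rw [← h2]; abel
      have h6 : V (k + 1) = V k - W0 (ix (k + 1)) := by rw [← h1]; abel
      rw [h5, h6]
  obtain ⟨ζ, ρ, β, hρ0, hVle, hβ0, hβ1, hβζ, hβρ⟩ := meb (fun i : Fin n => V i)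
  have hVle' : ∀ k, ‖V k - ζ‖ ≤ ρ := by
    intro k
    have h1 : V k = V (k % n) := by
      have h : ∀ m r, V (r + m * n) = V r := by
        intro m
        induction m with
        | zero => simp
        | succ m ih =>
          intro r
          rw [Nat.succ_mul, ← Nat.add_assoc, hVper, ih]
      conv_lhs => rw [← Nat.mod_add_div k n, Nat.mul_comm n]
      rw [h]
    rw [h1]
    exact hVle ⟨k % n, Nat.mod_lt _ hn⟩
  have hxB : ∃ x, x ∈ BP (F : Set E) := by
    refine ⟨hFne.choose, mem_BP.mpr ?_⟩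
    intro c' hc'
    linarith [hF _ hFne.choose_spec c' (by simpa using hc')]
  have hρpos : 0 < ρ := by
    rcases eq_or_lt_of_le hρ0 with h | h
    · exfalso
      have hVζ : ∀ k, V k = ζ := by
        intro k
        have h1 := hVle' k
        rw [← h] at h1
        exact sub_eq_zero.mp (norm_le_zero_iff.mp h1)
      have hWz : ∀ k, W0 (ix (k + 1)) = 0 := by
        intro k; rw [← hVd, hVζ, hVζ, sub_self]
      obtain ⟨x, hx⟩ := hxB
      have h2 : ∑ k ∈ Finset.range n, a0 (ix (k + 1)) ≤ 0 := by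
        apply Finset.sum_nonpos
        intro k _
        have h3 := hkey0 (ix (k + 1)) x hx
        rw [hWz, inner_zero_left, inner_zero_left] at h3
        nlinarith
      rw [hsumix, ha0sum] at h2
      linarith
    · exact h
  -- a vertex on the sphere
  have hexs : ∃ s : Fin n, β s ≠ 0 := by
    by_contra hcon
    push Not at hcon
    simp [hcon] at hβ1
  obtain ⟨s, hs⟩ := hexs
  let v : ℕ → E := fun k => (ρ⁻¹) • (V (k + s) - ζ)
  have hvn : v n = v 0 := by
    simp only [v]
    rw [show n + (s : ℕ) = s + n by ring, hVper, Nat.zero_add]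
  have hnv : ∀ k, ‖v k‖ = ρ⁻¹ * ‖V (k + s) - ζ‖ := by
    intro k
    simp only [v]
    rw [norm_smul, norm_inv, Real.norm_eq_abs, abs_of_pos hρpos]
  have hv1 : ∀ k, ‖v k‖ ≤ 1 := by
    intro k
    rw [hnv, inv_mul_le_iff₀ hρpos, mul_one]
    exact hVle' _
  have h01 : ‖v 0‖ = 1 := by
    rw [hnv, Nat.zero_add, hβρ s hs, inv_mul_cancel₀ hρpos.ne']
  have hz : ∀ w : E, ∃ i, i < n ∧ ‖v i‖ = 1 ∧ inner ℝ (v i) w ≤ 0 := by
    intro w
    by_contra hcon
    push Not at hcon
    -- for every index j with β j ≠ 0, the inner product is positive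
    have hpos : ∀ j : Fin n, β j ≠ 0 → 0 < inner ℝ (V j - ζ) w := by
      intro j hj
      have hjs : ∃ i, i < n ∧ V (i + s) = V j := by
        by_cases hle : (s : ℕ) ≤ j
        · exact ⟨j - s, by omega, by rw [Nat.sub_add_cancel hle]⟩
        · refine ⟨j + n - s, by omega, ?_⟩
          rw [show (j : ℕ) + n - s + s = j + n by omega, hVper]
      obtain ⟨i, hi, hVi⟩ := hjs
      have h1 : ‖v i‖ = 1 := by
        rw [hnv, hVi, hβρ j hj, inv_mul_cancel₀ hρpos.ne']
      have h2 := hcon i hi h1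
      simp only [v] at h2
      rw [real_inner_smul_left, hVi] at h2
      exact (mul_pos_iff_of_pos_left (inv_pos.mpr hρpos)).mp h2
    have h3 : ∑ j, β j * inner ℝ (V j - ζ) w = 0 := by
      simp_rw [← real_inner_smul_left, smul_sub]
      rw [← sum_inner, Finset.sum_sub_distrib, ← Finset.sum_smul, hβ1, one_smul, hβζ, sub_self,
        inner_zero_left]
    have h4 : 0 < ∑ j, β j * inner ℝ (V j - ζ) w := by
      apply Finset.sum_pos'
      · intro j _
        by_cases hj : β j = 0
        · simp [hj]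
        · exact mul_nonneg (hβ0 j) (hpos j hj).le
      · exact ⟨s, Finset.mem_univ _, mul_pos (lt_of_le_of_ne (hβ0 s) (Ne.symm hs)) (hpos s hs)⟩
    linarith
  have hqix : ∀ k, q (ix k) = q k := fun k => hmod k
  have hsup : ∀ k, ∀ x ∈ BP (F : Set E),
      inner ℝ (v k - v (k + 1)) x + ρ⁻¹ * ((R - 1) * a0 (ix (k + s + 1)))
        ≤ inner ℝ (v k - v (k + 1)) ((fun k => q (k + s) - z) (k + 1)) := by
    intro k x hx
    have h1 : v k - v (k + 1) = (ρ⁻¹) • W0 (ix (k + s + 1)) := by
      simp only [v]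
      rw [← smul_sub, show k + 1 + (s : ℕ) = k + s + 1 by ring, ← hVd]
      congr 1; abel
    rw [h1, real_inner_smul_left, real_inner_smul_left, ← mul_add]
    apply mul_le_mul_of_nonneg_left _ (inv_pos.mpr hρpos).le
    have h2 := hkey0 (ix (k + s + 1)) x hx
    rw [hqix] at h2
    simp only
    rw [show k + 1 + (s : ℕ) = k + s + 1 by ring]
    exact h2
  have hmain := abstract_bound (S := (F : Set E)) (by simpa using hFne) hδ0 hδ1
    (by intro c hc c' hc'; exact hF c (by simpa using hc) c' (by simpa using hc'))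
    (n := n) (q := fun k => q (k + s) - z) (v := v)
    (ε := fun k => ρ⁻¹ * ((R - 1) * a0 (ix (k + s + 1))))
    (by beta_reduce; rw [show n + (s : ℕ) = s + n by ring, hq, Nat.zero_add]) hvn hv1 h01 hz hsup
  have h1 : ∑ k ∈ Finset.range n, ρ⁻¹ * ((R - 1) * a0 (ix (k + s + 1))) = ρ⁻¹ * (R - 1) := by
    rw [← Finset.mul_sum, ← Finset.mul_sum]
    have h2 : ∑ k ∈ Finset.range n, a0 (ix (k + s + 1)) = 1 := by
      have h3 := sum_shift (f := fun k => a0 (ix (k + 1))) (n := n) (fun k => by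
        beta_reduce
        rw [show k + n + 1 = (k + 1) + n by ring, hixper]) s
      beta_reduce at h3
      rw [h3, hsumix, ha0sum]
    rw [h2, mul_one]
  have h2 : ∑ k ∈ Finset.range n, ‖(fun k => q (k + s) - z) (k + 1) - (fun k => q (k + s) - z) k‖
      = ∑ k ∈ Finset.range n, ‖q (k + 1) - q k‖ := by
    have h3 := sum_shift (f := fun k => ‖q (k + 1) - q k‖) (n := n) (fun k => by
        beta_reduce
        rw [show k + n + 1 = (k + 1) + n by ring, hq, hq]) s
    rw [← h3]
    apply Finset.sum_congr rfl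
    intro k _
    simp only
    congr 1
    rw [show k + 1 + (s : ℕ) = k + s + 1 by ring]
    abel
  rw [h1, h2] at hmain
  have h3 : 0 < ρ⁻¹ * (R - 1) := mul_pos (inv_pos.mpr hρpos) (by linarith)
  linarith

end Pool.Agent.Y717.Cur
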