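import Mathlib
import Pool.Agent.Y717.Cur.K
import Pool.Agent.Y717.Cur.F

set_option autoImplicit false

namespace Pool.Agent.Y717.Cur

open scoped BigOperators
open Metric

variable {E : Type*} [NormedAddCommGroup E] [InnerProductSpace ℝ E]

/-- closed curves of length at most `4 - 2δ` have a translate in the ball body -/
theorem cover_curve [ProperSpace E] (S : Set E) (hSne : S.Nonempty) {δ : ℝ} (hδ0 : 0 ≤ δ)
    (hδ1 : δ ≤ 1) (hS : ∀ c ∈ S, ∀ c' ∈ S, ‖c - c'‖ ≤ δ) (γ : ℝ → E) (h01 : γ 0 = γ 1)
    (hvar : eVariationOn γ (Set.Icc 0 1) ≤ ENNReal.ofReal (4 - 2 * δ)) :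
    ∃ t : E, ∀ s ∈ Set.Icc (0 : ℝ) 1, γ s + t ∈ BP S := by
  classical
  obtain ⟨c₀, hc₀⟩ := hSne
  let T : (Set.Icc (0 : ℝ) 1) × S → Set E := fun i => closedBall ((i.2 : E) - γ i.1) 1
  have hmemT : ∀ i t, t ∈ T i ↔ ‖γ i.1 + t - (i.2 : E)‖ ≤ 1 := by
    intro i t
    simp only [T, mem_closedBall, dist_eq_norm]
    have : t - ((i.2 : E) - γ i.1) = γ i.1 + t - (i.2 : E) := by abel
    rw [this]
  have key : (closedBall (c₀ - γ 0) 1 ∩ ⋂ i, T i).Nonempty := by
    apply IsCompact.inter_iInter_nonempty (isCompact_closedBall _ _) T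
      (fun i => isClosed_closedBall)
    intro u
    let F : Finset E := u.image (fun i => (i.2 : E)) ∪ {c₀}
    have hFS : ∀ c ∈ F, c ∈ S := by
      intro c hc
      simp only [F, Finset.mem_union, Finset.mem_image, Finset.mem_singleton] at hc
      rcases hc with ⟨i, -, rfl⟩ | rfl
      · exact i.2.2
      · exact hc₀
    have hFne : F.Nonempty := ⟨c₀, by simp [F]⟩
    let P : Finset ℝ := u.image (fun i => (i.1 : ℝ)) ∪ {0, 1}
    have hP0 : (0 : ℝ) ∈ P := by simp [P]
    have hP1 : (1 : ℝ) ∈ P := by simp [P]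
    have hPI : ∀ s ∈ P, s ∈ Set.Icc (0 : ℝ) 1 := by
      intro s hs
      simp only [P, Finset.mem_union, Finset.mem_image, Finset.mem_insert,
        Finset.mem_singleton] at hs
      rcases hs with ⟨i, -, rfl⟩ | rfl | rfl
      · exact i.1.2
      · exact ⟨le_refl _, zero_le_one⟩
      · exact ⟨zero_le_one, le_refl _⟩
    have hPne : P.Nonempty := ⟨0, hP0⟩
    set r : ℕ := P.card with hr
    have hr2 : 2 ≤ r := by
      have : ({0, 1} : Finset ℝ) ⊆ P := by
        intro x hx; simp only [Finset.mem_insert, Finset.mem_singleton] at hx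
        rcases hx with rfl | rfl
        · exact hP0
        · exact hP1
      have h2 := Finset.card_le_card this
      rw [Finset.card_pair (zero_ne_one)] at h2
      exact h2
    let emb := P.orderEmbOfFin (rfl : P.card = P.card)
    let e : ℕ → ℝ := fun k => emb ⟨min k (r - 1), by omega⟩
    have hmono : Monotone e := by
      intro i j hij
      simp only [e]
      apply emb.monotone
      simp only [Fin.mk_le_mk]
      omega
    have hmem : ∀ k, e k ∈ P := fun k => Finset.orderEmbOfFin_mem _ _ _
    have he0 : e 0 = 0 := by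
      have h2 : e 0 = P.min' hPne := by
        simp only [e]
        rw [← Finset.orderEmbOfFin_zero (rfl : P.card = P.card) (by omega)]
        simp [emb]
      rw [h2]
      apply le_antisymm
      · exact Finset.min'_le _ _ hP0
      · exact (hPI _ (Finset.min'_mem _ _)).1
    have hen : e (r - 1) = 1 := by
      have h2 : e (r - 1) = P.max' hPne := by
        simp only [e]
        rw [← Finset.orderEmbOfFin_last (rfl : P.card = P.card) (by omega)]
        simp [emb]
        rfl
      rw [h2]
      apply le_antisymm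
      · exact (hPI _ (Finset.max'_mem _ _)).2
      · exact Finset.le_max' _ _ hP1
    set n : ℕ := r - 1 with hn
    have hn0 : 0 < n := by omega
    let q : ℕ → E := fun k => γ (e (k % n))
    have hq : ∀ k, q (k + n) = q k := by
      intro k; simp only [q, Nat.add_mod_right]
    have hqe : ∀ k, k ≤ n → q k = γ (e k) := by
      intro k hk
      rcases eq_or_lt_of_le hk with h | h
      · rw [h]; simp only [q, Nat.mod_self, he0, hen]; exact h01
      · simp only [q, Nat.mod_eq_of_lt h]
    have hlen : ∑ k ∈ Finset.range n, ‖q (k + 1) - q k‖ ≤ 4 - 2 * δ := by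
      have h1 : (∑ k ∈ Finset.range n, edist (γ (e (k + 1))) (γ (e k)))
          ≤ eVariationOn γ (Set.Icc 0 1) :=
        eVariationOn.sum_le hmono (fun i => hPI _ (hmem i))
      have h2 : (∑ k ∈ Finset.range n, edist (γ (e (k + 1))) (γ (e k)))
          = ENNReal.ofReal (∑ k ∈ Finset.range n, ‖q (k + 1) - q k‖) := by
        rw [ENNReal.ofReal_sum_of_nonneg (fun i _ => norm_nonneg _)]
        apply Finset.sum_congr rfl
        intro k hk
        rw [Finset.mem_range] at hk
        rw [edist_dist, dist_eq_norm, hqe (k + 1) (by omega), hqe k (by omega)]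
      rw [h2] at h1
      exact (ENNReal.ofReal_le_ofReal_iff (by linarith)).mp (h1.trans hvar)
    obtain ⟨t, ht⟩ := cover_poly F hFne hδ0 hδ1
      (fun c hc c' hc' => hS c (hFS c hc) c' (hFS c' hc')) hn0 hq hlen
    refine ⟨t, ?_, ?_⟩
    · have h1 := ht 0 c₀ (by simp [F])
      rw [hqe 0 (by omega), he0] at h1
      rw [mem_closedBall, dist_eq_norm]
      have : t - (c₀ - γ 0) = γ 0 + t - c₀ := by abel
      rw [this]; exact h1
    · simp only [Set.mem_iInter]
      intro i hi
      rw [hmemT]
      have hcF : (i.2 : E) ∈ F := by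
        simp only [F, Finset.mem_union, Finset.mem_image]
        left; exact ⟨i, hi, rfl⟩
      have hsP : (i.1 : ℝ) ∈ P := by
        simp only [P, Finset.mem_union, Finset.mem_image]
        left; exact ⟨i, hi, rfl⟩
      have hir : (i.1 : ℝ) ∈ Set.range (P.orderEmbOfFin (rfl : P.card = P.card)) := by
        rw [Finset.range_orderEmbOfFin]; exact hsP
      obtain ⟨j, hj⟩ := hir
      have hej : e j = (i.1 : ℝ) := by
        simp only [e]
        have : (⟨min (j : ℕ) (r - 1), by omega⟩ : Fin P.card) = j := by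
          apply Fin.ext
          simp only
          have := j.2
          omega
        rw [this]; exact hj
      have h1 := ht j i.2 hcF
      rw [hqe j (by have := j.2; omega), hej] at h1
      exact h1
  obtain ⟨t, -, ht⟩ := key
  refine ⟨t, fun s hs => ?_⟩
  rw [mem_BP]
  intro c hc
  have h1 := Set.mem_iInter.mp ht (⟨s, hs⟩, ⟨c, hc⟩)
  rw [hmemT] at h1
  exact h1

end Pool.Agent.Y717.Cur
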