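import Mathlib
import Pool.Agent.Y717.Cur.G

set_option autoImplicit false

namespace Pool.Agent.Y717.Cur

open scoped BigOperators
open Metric

variable {E : Type*} [NormedAddCommGroup E] [InnerProductSpace ℝ E]

theorem BP_closure (C : Set E) : BP (closure C) = BP C := by
  apply Set.Subset.antisymm
  · intro x hx
    rw [mem_BP] at hx ⊢
    exact fun c hc => hx c (subset_closure hc)
  · intro x hx
    rw [mem_BP] at hx ⊢
    have h1 : IsClosed {c : E | ‖x - c‖ ≤ 1} := isClosed_le (by fun_prop) continuous_const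
    exact fun c hc => (closure_minimal (fun c hc => hx c hc) h1) hc

/-- the diameter of the centres is attained on the closure -/
theorem exists_pair [ProperSpace E] {C : Set E} (hC : C.Nonempty)
    (hfat : ∀ c ∈ C, ∀ c' ∈ C, dist c c' ≤ 1) :
    0 ≤ Metric.diam C ∧ Metric.diam C ≤ 1 ∧
    (∀ c ∈ closure C, ∀ c' ∈ closure C, ‖c - c'‖ ≤ Metric.diam C) ∧
    ∃ c₁ ∈ closure C, ∃ c₂ ∈ closure C, dist c₁ c₂ = Metric.diam C := by
  have hb : Bornology.IsBounded C := by
    rw [Metric.isBounded_iff]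
    exact ⟨1, fun x hx y hy => hfat x hx y hy⟩
  have hb' := hb.closure
  have h2 : ∀ c ∈ closure C, ∀ c' ∈ closure C, dist c c' ≤ Metric.diam C := by
    intro c hc c' hc'
    rw [← Metric.diam_closure]
    exact Metric.dist_le_diam_of_mem hb' hc hc'
  refine ⟨Metric.diam_nonneg, Metric.diam_le_of_forall_dist_le zero_le_one hfat,
    fun c hc c' hc' => by rw [← dist_eq_norm]; exact h2 c hc c' hc', ?_⟩
  have hcpt : IsCompact (closure C) := Metric.isCompact_of_isClosed_isBounded isClosed_closure hb'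
  obtain ⟨x, hx, hmax⟩ := (hcpt.prod hcpt).exists_isMaxOn
    (hC.closure.prod hC.closure) (f := fun x : E × E => dist x.1 x.2) (by fun_prop)
  obtain ⟨hx1, hx2⟩ := hx
  refine ⟨x.1, hx1, x.2, hx2, le_antisymm (h2 _ hx1 _ hx2) ?_⟩
  rw [← Metric.diam_closure]
  apply Metric.diam_le_of_forall_dist_le dist_nonneg
  intro y hy y' hy'
  exact hmax (show (y, y') ∈ closure C ×ˢ closure C from ⟨hy, hy'⟩)

theorem exists_dir [Nontrivial E] {c₁ c₂ : E} {δ : ℝ} (h : dist c₁ c₂ = δ) :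
    ∃ e : E, ‖e‖ = 1 ∧ c₂ - c₁ = δ • e := by
  have hδ0 : 0 ≤ δ := by rw [← h]; exact dist_nonneg
  by_cases hz : δ = 0
  · obtain ⟨e, he⟩ := exists_norm_eq E (zero_le_one (α := ℝ))
    refine ⟨e, he, ?_⟩
    have : c₁ = c₂ := by rw [← dist_eq_zero, h, hz]
    rw [hz, this]; simp
  · refine ⟨δ⁻¹ • (c₂ - c₁), ?_, ?_⟩
    · rw [norm_smul, norm_inv, Real.norm_eq_abs, abs_of_nonneg hδ0, ← dist_eq_norm,
        dist_comm, h, inv_mul_cancel₀ hz]
    · rw [smul_smul, mul_inv_cancel₀ hz, one_smul]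

theorem no_long_segment {C : Set E} {c₁ c₂ e : E} {δ L : ℝ} (h1 : c₁ ∈ C) (h2 : c₂ ∈ C)
    (he : ‖e‖ = 1) (hc : c₂ - c₁ = δ • e) (hL : 2 - δ < L) (t : E) :
    ¬ ((0 : E) + t ∈ BP C ∧ L • e + t ∈ BP C) := by
  rintro ⟨ha, hb⟩
  have h3 := mem_BP.mp ha c₂ h2
  have h4 := mem_BP.mp hb c₁ h1
  have h5 : inner ℝ e (L • e + t - c₁) ≤ 1 := by
    have := real_inner_le_norm e (L • e + t - c₁)
    rw [he, one_mul] at this; linarith
  have h6 : -1 ≤ inner ℝ e (0 + t - c₂) := by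
    have := abs_real_inner_le_norm e (0 + t - c₂)
    rw [he, one_mul] at this
    have := neg_abs_le (inner ℝ e (0 + t - c₂))
    linarith
  have h7 : inner ℝ e (L • e + t - c₁) - inner ℝ e (0 + t - c₂) = L + δ := by
    rw [← inner_sub_right]
    have : L • e + t - c₁ - (0 + t - c₂) = L • e + (c₂ - c₁) := by abel
    rw [this, hc, inner_add_right, inner_smul_right, inner_smul_right,
      real_inner_self_eq_norm_sq, he]
    ring
  linarith

theorem traj_le [ProperSpace E] {S : Set E} (hSne : S.Nonempty) {δ : ℝ} (hδ0 : 0 ≤ δ)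
    (hδ1 : δ ≤ 1) (hS : ∀ c ∈ S, ∀ c' ∈ S, ‖c - c'‖ ≤ δ) {n : ℕ} (hn : 0 < n) {q v : ℕ → E}
    (T : Traj S n q v) :
    4 - 2 * δ ≤ ∑ k ∈ Finset.range n, ‖q (k + 1) - q k‖ := by
  have h := abstract_bound hSne hδ0 hδ1 hS (n := n) (q := q) (v := v) (ε := fun _ => 0)
    T.qper T.vper (fun k => (T.hv1 k).le) (T.hv1 0)
    (fun z => by
      obtain ⟨i, hi, h⟩ := exists_nonpos hn T z
      exact ⟨i, hi, T.hv1 i, h⟩)
    (fun k x hx => by rw [add_zero]; exact T.sup k x hx)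
  simpa using h

/-- a body of constant width one is the intersection of the unit balls centred at its points -/
theorem const_width [CompleteSpace E] [Nontrivial E] {K : Set E} (hK : IsCompact K) (hconv : Convex ℝ K)
    (hw : ∀ u : E, ‖u‖ = 1 → ∃ x ∈ K, ∃ y ∈ K, (∀ z ∈ K, inner ℝ u z ≤ inner ℝ u x) ∧
      (∀ z ∈ K, inner ℝ u y ≤ inner ℝ u z) ∧ inner ℝ u x - inner ℝ u y = 1) :
    (∀ c ∈ K, ∀ c' ∈ K, dist c c' ≤ 1) ∧ BP K ⊆ K := by
  constructor
  · intro c hc c' hc'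
    by_cases hcc : c - c' = 0
    · rw [dist_eq_norm, hcc, norm_zero]; exact zero_le_one
    have hpos : 0 < ‖c - c'‖ := norm_pos_iff.mpr hcc
    obtain ⟨x, hx, y, hy, h1, h2, h3⟩ := hw ((‖c - c'‖⁻¹) • (c - c')) (by
      rw [norm_smul, norm_inv, norm_norm, inv_mul_cancel₀ hpos.ne'])
    have h4 := h1 c hc
    have h5 := h2 c' hc'
    have h6 : inner ℝ ((‖c - c'‖⁻¹) • (c - c')) c - inner ℝ ((‖c - c'‖⁻¹) • (c - c')) c'
        = ‖c - c'‖ := by
      rw [← inner_sub_right, real_inner_smul_left, real_inner_self_eq_norm_sq]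
      field_simp
    rw [dist_eq_norm]
    linarith
  · intro z hz
    by_contra hzK
    obtain ⟨f, u₀, hf1, hf2⟩ := geometric_hahn_banach_closed_point hconv hK.isClosed hzK
    set w : E := (InnerProductSpace.toDual ℝ E).symm f with hwdef
    have hfw : ∀ x, f x = inner ℝ w x := by
      intro x
      rw [hwdef, InnerProductSpace.toDual_symm_apply]
    obtain ⟨e, he⟩ := exists_norm_eq E (zero_le_one (α := ℝ))
    obtain ⟨k₀, hk₀, -⟩ := hw e he
    have hw0 : w ≠ 0 := by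
      intro h
      have h1 := hf1 k₀ hk₀
      rw [hfw, h, inner_zero_left] at h1 hf2
      linarith
    have hpos : 0 < ‖w‖ := norm_pos_iff.mpr hw0
    obtain ⟨x, hx, y, hy, h1, h2, h3⟩ := hw ((‖w‖⁻¹) • w) (by
      rw [norm_smul, norm_inv, norm_norm, inv_mul_cancel₀ hpos.ne'])
    have h4 : inner ℝ ((‖w‖⁻¹) • w) x < inner ℝ ((‖w‖⁻¹) • w) z := by
      rw [real_inner_smul_left, real_inner_smul_left, ← hfw, ← hfw]
      exact mul_lt_mul_of_pos_left ((hf1 x hx).trans hf2) (inv_pos.mpr hpos)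
    have h5 := mem_BP.mp hz y hy
    have h6 := real_inner_le_norm ((‖w‖⁻¹) • w) (z - y)
    rw [norm_smul, norm_inv, norm_norm, inv_mul_cancel₀ hpos.ne', one_mul, inner_sub_right] at h6
    linarith

end Pool.Agent.Y717.Cur
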