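import Mathlib
import Pool.Agent.Y717.Cur.H

/-!
# Everything together, in a finite-dimensional inner product space
-/

set_option autoImplicit false

namespace Pool.Agent.Y717.Cur

open Metric

variable {E : Type*} [NormedAddCommGroup E] [InnerProductSpace ℝ E]

theorem all_in_one [ProperSpace E] [Nontrivial E] :
    (∀ C : Set E, C.Nonempty → (∀ c ∈ C, ∀ c' ∈ C, dist c c' ≤ 1) →
      (∀ γ : ℝ → E, γ 0 = γ 1 →
        eVariationOn γ (Set.Icc 0 1) ≤ ENNReal.ofReal (4 - 2 * diam C) →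
        ∃ t, ∀ s ∈ Set.Icc (0 : ℝ) 1, γ s + t ∈ BP C) ∧
      (∀ L : ℝ, 2 - diam C < L → ∃ x y : E, dist x y = L ∧
        ∀ t, ¬ (x + t ∈ BP C ∧ y + t ∈ BP C)) ∧
      (∃ p : Fin 2 → E, IsTraj (BP C) 2 p ∧
        ∑ j, dist (p j) (p (finRotate 2 j)) = 4 - 2 * diam C) ∧
      (∀ (n : ℕ) (p : Fin n → E), IsTraj (BP C) n p →
        4 - 2 * diam C ≤ ∑ i, dist (p i) (p (finRotate n i)) ∧
        (3 ≤ n → 4 - 2 * diam C < ∑ i, dist (p i) (p (finRotate n i))) ∧
        ((∀ (m : ℕ) (q : Fin m → E), IsTraj (BP C) m q →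
          ∑ i, dist (p i) (p (finRotate n i)) ≤ ∑ j, dist (q j) (q (finRotate m j))) → n = 2))) ∧
    (∀ K : Set E, IsCompact K → Convex ℝ K →
      (∀ u : E, ‖u‖ = 1 → ∃ x ∈ K, ∃ y ∈ K,
        (∀ z ∈ K, inner ℝ u z ≤ inner ℝ u x) ∧ (∀ z ∈ K, inner ℝ u y ≤ inner ℝ u z) ∧
        inner ℝ u x - inner ℝ u y = 1) →
      ∀ γ : ℝ → E, γ 0 = γ 1 → eVariationOn γ (Set.Icc 0 1) ≤ 2 →
        ∃ t, ∀ s ∈ Set.Icc (0 : ℝ) 1, γ s + t ∈ K) := by
  constructor
  · intro C hC hfat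
    obtain ⟨hδ0, hδ1, hS, c₁, hc₁, c₂, hc₂, hcc⟩ := exists_pair hC hfat
    obtain ⟨e, he, hce⟩ := exists_dir hcc
    have hne : (closure C).Nonempty := hC.closure
    obtain ⟨ht, hl⟩ := two_periodic hδ0 hδ1 hS hc₁ hc₂ he hce
    rw [BP_closure] at ht
    have hn2 : ∀ (n : ℕ) (p : Fin n → E), IsTraj (BP C) n p →
        3 ≤ n → 4 - 2 * diam C < ∑ i, dist (p i) (p (finRotate n i)) := by
      intro n p h hn3
      obtain ⟨m, rfl⟩ : ∃ m, n = m + 1 := ⟨n - 1, by omega⟩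
      rw [← BP_closure] at h
      obtain ⟨hT, hsum⟩ := traj_of_isTraj h
      rw [hsum]
      exact main_ineq (q := fun k => p (ix m k)) hne hδ0 hδ1 hS hn3 hT
    refine ⟨?_, ?_, ⟨_, ht, hl⟩, ?_⟩
    · intro γ h01 hvar
      have h := cover_curve (closure C) hne hδ0 hδ1 hS γ h01 hvar
      rw [BP_closure] at h
      exact h
    · intro L hL
      refine ⟨0, L • e, ?_, fun t h => ?_⟩
      · rw [dist_eq_norm, zero_sub, norm_neg, norm_smul, he, mul_one, Real.norm_eq_abs,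
          abs_of_pos (by linarith)]
      · rw [← BP_closure] at h
        exact no_long_segment hc₁ hc₂ he hce hL t h
    · intro n p h
      refine ⟨?_, hn2 n p h, ?_⟩
      · have h2 := h.1
        obtain ⟨m, rfl⟩ : ∃ m, n = m + 1 := ⟨n - 1, by omega⟩
        rw [← BP_closure] at h
        obtain ⟨hT, hsum⟩ := traj_of_isTraj h
        rw [hsum]
        exact traj_le (q := fun k => p (ix m k)) hne hδ0 hδ1 hS (by omega) hT
      · intro hmin
        by_contra hne2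
        have h2 := h.1
        have h3 := hn2 n p h (by omega)
        have h4 := hmin 2 _ ht
        rw [hl] at h4
        linarith
  · intro K hK hconv hw γ h01 hvar
    obtain ⟨hfat, hsub⟩ := const_width hK hconv hw
    have hKne : K.Nonempty := by
      obtain ⟨e, he⟩ := exists_norm_eq E (zero_le_one (α := ℝ))
      obtain ⟨k₀, hk₀, -⟩ := hw e he
      exact ⟨k₀, hk₀⟩
    have h := cover_curve K hKne (δ := 1) zero_le_one (le_refl _)
      (fun c hc c' hc' => by rw [← dist_eq_norm]; exact hfat c hc c' hc') γ h01 (by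
        have : (4 : ℝ) - 2 * 1 = 2 := by norm_num
        rw [this]; simpa using hvar)
    obtain ⟨t, ht⟩ := h
    exact ⟨t, fun s hs => hsub (ht s hs)⟩

end Pool.Agent.Y717.Cur
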